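import Pool.Agent.Helper826.Jia.Core

/-!
The least number of edges of a graph with cycles of all lengths from 3 to n exceeds n + log n by an
unbounded amount.
-/

set_option autoImplicit false

open Filter

namespace Pool.Agent.Results.MP_45f6a5_co.Unbounded

/-- The graph `G` contains, for every integer `k` with `3 ≤ k ≤ n`, a cycle of length exactly `k`. -/
def HasCyclesUpTo {V : Type} (G : SimpleGraph V) (n : ℕ) : Prop :=
  ∀ k : ℕ, 3 ≤ k → k ≤ n → ∃ (v : V) (p : G.Walk v v), p.IsCycle ∧ p.length = k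

/-- `g n`: the minimum number of edges of a finite simple graph (with any number `N` of vertices)
which contains a cycle of every length `3, …, n`. -/
noncomputable def g (n : ℕ) : ℕ :=
  sInf {m : ℕ | ∃ (N : ℕ) (G : SimpleGraph (Fin N)), G.edgeSet.ncard = m ∧ HasCyclesUpTo G n}

/-- The minimum in `g n` is over a nonempty set. -/
theorem g_set_nonempty (n : ℕ) :
    {m : ℕ | ∃ (N : ℕ) (G : SimpleGraph (Fin N)),
      G.edgeSet.ncard = m ∧ HasCyclesUpTo G n}.Nonempty := by
  refine ⟨(⊤ : SimpleGraph (Fin n)).edgeSet.ncard, n, ⊤, rfl, ?_⟩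
  intro k hk hkn
  rw [← SimpleGraph.cycleGraph_isContained_iff (by omega : 2 < k)]
  exact SimpleGraph.isContained_top_iff.mpr ⟨Fin.castLEEmb hkn⟩

/-- The value `g n` is attained. -/
theorem g_attained (n : ℕ) :
    ∃ (N : ℕ) (G : SimpleGraph (Fin N)), G.edgeSet.ncard = g n ∧ HasCyclesUpTo G n :=
  Nat.sInf_mem (g_set_nonempty n)

theorem g_tendsto :
    Tendsto (fun n : ℕ => (g n : ℝ) - n - Real.logb 2 n) atTop atTop := by
  rw [tendsto_atTop]
  intro C
  obtain ⟨n0, hn0⟩ := Jia.core C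
  filter_upwards [eventually_ge_atTop n0] with n hn
  obtain ⟨N, G, hG, hA⟩ := g_attained n
  have := hn0 n hn N G hA
  rw [hG] at this
  linarith

/-- `g n = n + log₂ n + O(1)` fails; the difference tends to infinity. -/
theorem result :
    Tendsto (fun n : ℕ => (g n : ℝ) - n - Real.logb 2 n) atTop atTop ∧
      ¬ ∃ C : ℝ, ∀ᶠ n : ℕ in atTop, |(g n : ℝ) - n - Real.logb 2 n| ≤ C := by
  refine ⟨g_tendsto, ?_⟩
  rintro ⟨C, hC⟩
  have h1 := (tendsto_atTop.1 g_tendsto) (C + 1)
  obtain ⟨n, hn1, hn2⟩ := (hC.and h1).exists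
  have := le_abs_self ((g n : ℝ) - n - Real.logb 2 n)
  linarith

end Pool.Agent.Results.MP_45f6a5_co.Unbounded
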